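import Pool.Agent.H69.Rig3

open MeasureTheory Filter Topology
open scoped ENNReal symmDiff

namespace Pool.Agent.Results.MP_1dc7bd_an.ReturnMap

/-- measure-theoretic rigidity of `(Y, f, ν)` -/
def Rigid {Y : Type} [MeasurableSpace Y] (ν : Measure Y) (f : Y → Y) : Prop :=
  ∃ n : ℕ → ℕ, StrictMono n ∧ (∀ k, 0 < n k) ∧
    ∀ B : Set Y, MeasurableSet B → Tendsto (fun k => ν ((f^[n k] ⁻¹' B) ∆ B)) atTop (𝓝 0)

/-- `δ`-rigidity of `(Y, f, ν)` for some `δ ∈ (0, 1]` -/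
def DeltaRigid {Y : Type} [MeasurableSpace Y] (ν : Measure Y) (f : Y → Y) : Prop :=
  ∃ δ : ℝ≥0∞, 0 < δ ∧ δ ≤ 1 ∧ ∃ n : ℕ → ℕ, StrictMono n ∧ (∀ k, 0 < n k) ∧
    ∀ B : Set Y, MeasurableSet B → δ * ν B ≤ liminf (fun k => ν (B ∩ f^[n k] ⁻¹' B)) atTop

open H69.Rig in
theorem result :
    ∃ (X : Type) (_ : TopologicalSpace X) (_ : CompactSpace X)
      (_ : TopologicalSpace.MetrizableSpace X) (_ : TotallyDisconnectedSpace X)
      (_ : MeasurableSpace X) (_ : BorelSpace X) (T : X ≃ₜ X) (μ : Measure X),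
      (∀ x : X, (𝓝[≠] x).NeBot) ∧ (∀ x : X, Dense (Set.range fun n : ℤ => (T ^ n) x)) ∧
      IsProbabilityMeasure μ ∧ MeasurePreserving T μ μ ∧ Rigid μ T ∧ DeltaRigid μ T ∧
      ∃ A : Set X, IsClopen A ∧ μ A ≠ 0 ∧ ∃ TA : A → A,
        (∀ x : A, ∃ r : ℕ, 0 < r ∧ (TA x : X) = T^[r] x ∧
          ∀ j : ℕ, 0 < j → j < r → T^[j] x ∉ A) ∧
        ¬ DeltaRigid ((μ A)⁻¹ • μ.comap Subtype.val) TA := by
  have sm : StrictMono fun k : ℕ => 2 ^ k := fun _ _ l => Nat.pow_lt_pow_right (by norm_num) l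
  refine ⟨X, inferInstance, inferInstance, inferInstance, inferInstance, inferInstance,
    inferInstance, T, mu, perfect, fun p q => ?_, inferInstance, pres,
    ⟨_, sm, fun _ => by positivity, rigid⟩, ⟨1, one_pos, le_rfl, _, sm, fun _ => by positivity,
      fun B hB => lim_of _ B _ _ (rigid B hB) fun _ => subset_rfl⟩, A, A_clopen, mu_A,
    fun x => ⟨S x, S_A x⟩, fun x => ?_, ?_⟩
  · obtain ⟨n, -, h⟩ := dens p q
    refine mem_closure_of_tendsto h (Eventually.of_forall fun L => ⟨n L, ?_⟩)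
    simp only [zpow_natCast]
    induction n L with
    | zero => rfl
    | succ j ih => rw [pow_succ', Function.iterate_succ_apply', ← ih]; rfl
  · obtain ⟨r, a, c, -, d⟩ := S_ret x
    exact ⟨r, a, c, d⟩
  rintro ⟨δ, hδ, -, n, hn, -, h⟩
  have hA := A_clopen.isOpen.measurableSet
  have it : ∀ (j : ℕ) (x : A), ((fun x : A => (⟨S x, S_A x⟩ : A))^[j] x : X) = S^[j] x :=
    fun j x => Function.Semiconj.iterate_right (f := (Subtype.val : A → X))
      (ga := fun x : A => (⟨S x, S_A x⟩ : A)) (gb := S) (fun _ => rfl) j x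
  refine main hδ hn fun B hB hBA => ?_
  have := h _ (measurable_subtype_coe hB)
  simp only [Measure.smul_apply, smul_eq_mul, (MeasurableEmbedding.subtype_coe hA).comap_apply,
    Subtype.image_preimage_coe, Set.inter_eq_self_of_subset_right hBA] at this
  have i0 : (mu A)⁻¹ ≠ ⊤ := ENNReal.inv_ne_top.2 mu_A
  rw [ENNReal.liminf_const_mul_of_ne_top i0, mul_left_comm, ENNReal.mul_le_mul_iff_right
    (ENNReal.inv_ne_zero.2 (measure_ne_top _ _)) i0] at this
  refine this.trans (liminf_le_liminf (Eventually.of_forall fun i => measure_mono ?_))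
  rintro _ ⟨x, ⟨a, c⟩, rfl⟩
  exact ⟨a, by rw [Set.mem_preimage, ← it]; exact c⟩

end Pool.Agent.Results.MP_1dc7bd_an.ReturnMap
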